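import Pool.Agent.H31.OPH2

open scoped Pointwise
open Finset

namespace Pool.Agent.Results.MP_d88d3c_co.TwoLess

open Pool.Agent.H31.OPH

/-- Ehrhart series `1 + ∑_{n ≥ 1} #(nP ∩ ℤ^ι) z^n`. -/
noncomputable def ehr {ι : Type} (P : Set (ι → ℝ)) : PowerSeries ℤ :=
  PowerSeries.mk fun n => if n = 0 then 1 else
    (({y : ι → ℤ | (fun i => (y i : ℝ)) ∈ (n : ℝ) • P}.ncard : ℕ) : ℤ)

/-- Dimension of (the affine hull of) a set. -/
noncomputable def dim {ι : Type} (P : Set (ι → ℝ)) : ℕ := Module.finrank ℝ (vectorSpan ℝ P)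

/-- The numerator `h^*_P = (1 - z)^(dim P + 1) Ehr_P`. -/
noncomputable def hstar {ι : Type} (P : Set (ι → ℝ)) : PowerSeries ℤ :=
  (1 - PowerSeries.X) ^ (dim P + 1) * ehr P

/-- The unit cube. -/
def cube (α : Type) : Set (α → ℝ) := {x | ∀ a, 0 ≤ x a ∧ x a ≤ 1}

/-- The order polytope. -/
def orderPolytope (α : Type) [PartialOrder α] : Set (α → ℝ) :=
  {x | x ∈ cube α ∧ ∀ a b, a ≤ b → x a ≤ x b}

/-- The convex hull of a finite set of integer points. -/
def hull {m : ℕ} (S : Finset (Fin m → ℤ)) : Set (Fin m → ℝ) :=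
  convexHull ℝ ((fun y : Fin m → ℤ => fun i => (y i : ℝ)) '' (S : Set (Fin m → ℤ)))

theorem dim_top {ι : Type} [Fintype ι] (P : Set (ι → ℝ)) (h0 : (0 : ι → ℝ) ∈ P)
    (hs : Submodule.span ℝ P = ⊤) : dim P = Fintype.card ι := by
  have : vectorSpan ℝ P = ⊤ := by
    rw [eq_top_iff, ← hs, Submodule.span_le]
    intro x hx
    simpa using vsub_mem_vectorSpan ℝ hx h0
  rw [dim, this, finrank_top]; simp

theorem ehr_eq {ι : Type} (P : Set (ι → ℝ)) (hP : P.Nonempty) :
    ehr P = PowerSeries.mk fun n => ((pts P n).ncard : ℤ) := by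
  ext n
  simp only [ehr, PowerSeries.coeff_mk]
  split_ifs with h
  · subst h
    have : pts P 0 = {0} := by
      ext y
      simp only [pts, Nat.cast_zero, Set.zero_smul_set hP, Set.mem_ofPred_eq, Set.mem_zero,
        Set.mem_singleton_iff]
      constructor
      · intro h; ext i; have := congrFun h i; simpa [rp] using this
      · rintro rfl; exact rp_zero
    simp [this]
  · rfl

theorem pts_OP (α : Type) [PartialOrder α] (n : ℕ) : pts (OP α) n = U α n := by
  ext y
  have hn : (0 : ℝ) ≤ n := Nat.cast_nonneg n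
  constructor
  · rintro ⟨w, hw, e⟩
    have e' : ∀ a, (y a : ℝ) = n * w a := fun a => (congrFun e a).symm
    refine ⟨fun a => ?_, fun a b hab => ?_⟩
    · have := hw.1 a
      have : (0 : ℝ) ≤ y a ∧ (y a : ℝ) ≤ n := by rw [e']; constructor <;> nlinarith
      exact ⟨by exact_mod_cast this.1, by exact_mod_cast this.2⟩
    · have := hw.2 a b hab
      have : (y a : ℝ) ≤ y b := by rw [e', e']; nlinarith
      exact_mod_cast this
  · intro hy
    exact (decomp LinearMap.id (OP α) OP_convex (fun x hx => rp_mem_OP hx) n y hy).2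

theorem psum (a : ℕ → ℤ) :
    (1 - PowerSeries.X) * PowerSeries.mk (fun t => ∑ r ∈ range (t + 1), a r) = PowerSeries.mk a := by
  ext n
  rw [sub_mul, one_mul, map_sub]
  cases n with
  | zero => simp
  | succ n => simp [PowerSeries.coeff_succ_X_mul, sum_range_succ]

theorem U_split (α : Type) [Fintype α] [PartialOrder α] (t : ℕ) :
    (U α t).ncard = (t + 1) ^ Nat.card {a : α // ¬ ∃ b, a < b ∨ b < a} *
      (U {a : α // ∃ b, a < b ∨ b < a} t).ncard := by
  classical
  let p : α → Prop := fun a => ∃ b, a < b ∨ b < a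
  let E : U α t ≃ ({a // ¬ p a} → Set.Icc (0 : ℤ) t) × U {a // p a} t :=
    { toFun := fun x => (fun a => ⟨x.1 a, x.2.1 a⟩,
        ⟨fun a => x.1 a, fun a => x.2.1 a, fun a b hab => x.2.2 a b hab⟩)
      invFun := fun z => ⟨fun a => if h : p a then z.2.1 ⟨a, h⟩ else z.1 ⟨a, h⟩, by
        refine ⟨fun a => ?_, fun a b hab => ?_⟩
        · by_cases h : p a
          · simp only [dif_pos h]; exact z.2.2.1 _
          · simp only [dif_neg h]; exact (z.1 ⟨a, h⟩).2
        · rcases hab.eq_or_lt with rfl | hlt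
          · exact le_refl _
          · have h1 : p a := ⟨b, Or.inl hlt⟩
            have h2 : p b := ⟨a, Or.inr hlt⟩
            simp only [dif_pos h1, dif_pos h2]
            exact z.2.2.2 _ _ hab⟩
      left_inv := by
        intro x; ext a; by_cases h : p a <;> simp [h]
      right_inv := by
        intro z; ext a
        · simp [a.2]
        · simp [a.2] }
  rw [← Nat.card_coe_set_eq, Nat.card_congr E, Nat.card_prod, Nat.card_fun, Nat.card_coe_set_eq (U _ t)]
  congr 2
  simp

theorem result (α : Type) [Fintype α] [PartialOrder α] (h : orderPolytope α ≠ cube α) :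
    ∃ (m : ℕ) (S : Finset (Fin m → ℤ)), S.Nonempty ∧ dim (hull S) + 2 = Fintype.card α ∧
      dim (orderPolytope α) = Fintype.card α ∧ hstar (hull S) = hstar (orderPolytope α) := by
  classical
  let p : α → Prop := fun a => ∃ b, a < b ∨ b < a
  have hne : Nonempty {a // p a} := by
    by_contra hn
    apply h
    ext x
    refine ⟨fun hx => hx.1, fun hx => ⟨hx, fun a b hab => ?_⟩⟩
    rcases hab.eq_or_lt with rfl | hlt
    · exact le_refl _
    · exact absurd ⟨⟨a, b, Or.inl hlt⟩⟩ hn
  obtain ⟨D, hD, hR⟩ := rep_base (β := {a // p a}) (by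
    rintro ⟨a, b, hab | hab⟩
    · exact ⟨⟨b, a, Or.inr hab⟩, Or.inl hab⟩
    · exact ⟨⟨b, a, Or.inl hab⟩, Or.inr hab⟩)
  obtain ⟨V, h0, hs, hA⟩ := rep_iter hR (Nat.card {a // ¬ p a})
  have hO : orderPolytope α = OP α := rfl
  have hz : (0 : α → ℝ) ∈ OP α := ⟨fun a => by simp, fun a b _ => le_refl _⟩
  have d1 : dim (OP α) = Fintype.card α := by
    refine dim_top _ hz ?_
    rw [eq_top_iff]
    intro z _
    rw [pi_eq_sum_univ' z]
    exact Submodule.sum_mem _ fun i _ => Submodule.smul_mem _ _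
      (single_mem (fun x hx => Submodule.subset_span (rp_mem_OP hx)) i)
  have d2 : dim (poly V) = D + Nat.card {a // ¬ p a} := by
    rw [dim_top _ (zero_mem_poly h0) hs]; simp
  have hc : D + Nat.card {a // ¬ p a} + 2 = Fintype.card α := by
    rw [Nat.card_eq_fintype_card, Fintype.card_subtype_compl]
    have := Fintype.card_subtype_le p
    omega
  refine ⟨_, V, ⟨0, h0⟩, ?_, d1, ?_⟩
  · show dim (poly V) + 2 = _
    rw [d2, hc]
  · show hstar (poly V) = hstar (OP α)
    rw [hstar, hstar, d1, d2, ← hc, ehr_eq _ ⟨0, zero_mem_poly h0⟩, ehr_eq _ ⟨0, hz⟩]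
    have : (PowerSeries.mk fun n => ((pts (OP α) n).ncard : ℤ)) = PowerSeries.mk fun t =>
        ∑ r ∈ range (t + 1), ∑ s ∈ range (r + 1), ((pts (poly V) s).ncard : ℤ) := by
      congr 1; ext t
      rw [pts_OP, U_split]
      exact_mod_cast hA t
    rw [this, ← psum (fun n => ((pts (poly V) n).ncard : ℤ)),
      ← psum (fun r => ∑ s ∈ range (r + 1), ((pts (poly V) s).ncard : ℤ))]
    ring

end Pool.Agent.Results.MP_d88d3c_co.TwoLess
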